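import Pool.Agent.H.MP_3bbc5b_al.Core

set_option autoImplicit false

namespace Pool.Agent.H.MP_405479_al
open Polynomial MP_3bbc5b_al

section
variable {R S : Type} [CommRing R] [CommRing S]

/-- The factorial functional. -/
noncomputable def Λ : R[X] →ₗ[R] R := lsum fun n => (n.factorial : R) • LinearMap.id

theorem Λ_monomial (n : ℕ) (y : R) : Λ (monomial n y) = n.factorial * y := by
  simp [Λ, lsum_apply]

theorem Λ_map (ψ : R →+* S) (p : R[X]) : Λ (p.map ψ) = ψ (Λ p) := by
  induction p using Polynomial.induction_on' with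
  | add p q hp hq => simp [hp, hq]
  | monomial n y => simp [Λ_monomial]

theorem Λ_C_mul (y : R) (p : R[X]) : Λ (C y * p) = y * Λ p := by
  rw [← smul_eq_C_mul, map_smul, smul_eq_mul]

theorem Λ_der (p : R[X]) : Λ (derivative p - p) = -p.coeff 0 := by
  induction p using Polynomial.induction_on' with
  | add p q hp hq => rw [map_add, add_sub_add_comm, map_add, hp, hq, coeff_add, neg_add]
  | monomial n y =>
    rw [map_sub, derivative_monomial, Λ_monomial, Λ_monomial]
    cases n <;> simp [coeff_monomial, Nat.factorial_succ]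
    ring

theorem test [Algebra ℚ R] (J : Ideal R) (x : R) (h : ∀ (K : Type) [Field K] [IsAlgClosed K]
    [CharZero K] (ψ : R →+* K), (∀ y ∈ J, ψ y = 0) → ψ x = 0) : x ∈ J.radical := by
  rw [Ideal.radical_eq_sInf, Ideal.mem_sInf]
  rintro P ⟨hJ, hP⟩
  let ψ : R →+* AlgebraicClosure P.ResidueField :=
    (algebraMap P.ResidueField _).comp (algebraMap R P.ResidueField)
  have := (RingHom.charZero_iff (ψ.comp (algebraMap ℚ R)).injective).1 inferInstance
  simpa [ψ] using h _ ψ fun y hy => by simpa [ψ] using hJ hy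

end

theorem fact {K : Type} [Field K] [IsAlgClosed K] [CharZero K] {φ : K[X]}
    (h : ∀ m, 1 ≤ m → Λ (φ ^ m) = 0) : φ = 0 := by
  have ht : Top (X : K[X]) (1 - X) (0 + 1) :=
    ⟨by simp, by compute_degree, fun k => by simp [coeff_one, coeff_X]⟩
  refine main ht (fun τ hτ k => ?_) fun m hm => ?_
  · obtain rfl : τ = 0 := by simpa using hτ
    simpa using Nat.cast_add_one_ne_zero k
  obtain ⟨u, hu⟩ := ht.red (φ ^ m)
  rw [mem_degreeLT, zero_add, Nat.cast_one, Nat.WithBot.lt_one_iff_le_zero] at hu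
  have e := eq_C_of_degree_le_zero hu
  have e2 : E X (1 - X) u = derivative (X * u) - X * u := by rw [E_apply]; simp; ring
  have := congrArg Λ e
  rw [map_sub, h m hm, e2, Λ_der, ← monomial_zero_left, Λ_monomial, ← e2] at this
  simp only [mul_coeff_zero, coeff_X_zero, zero_mul, neg_zero, sub_zero, Nat.factorial_zero,
    Nat.cast_one, one_mul] at this
  rw [← this, C_0, sub_eq_zero] at e
  exact ⟨u, e.symm⟩

/-- `M` moments suffice in degree at most `n`. -/
def Suff (n M : ℕ) : Prop := ∀ (K : Type) [Field K] [IsAlgClosed K] [CharZero K] (φ : K[X]),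
  φ.natDegree ≤ n → (∀ m, 1 ≤ m → m ≤ M → Λ (φ ^ m) = 0) → φ = 0

theorem exists_suff (n : ℕ) : ∃ M, 1 ≤ M ∧ Suff n M := by
  let u : (MvPolynomial (Fin (n + 1)) ℤ)[X] := ∑ i : Fin (n + 1), monomial i (MvPolynomial.X i)
  obtain ⟨M, hM⟩ := monotone_stabilizes_iff_noetherian.2
    (inferInstance : IsNoetherian (MvPolynomial (Fin (n + 1)) ℤ) _)
    ⟨fun M => Ideal.span {y | ∃ m, 1 ≤ m ∧ m ≤ M ∧ y = Λ (u ^ m)}, fun M M' h =>
      Ideal.span_mono fun y ⟨m, h1, h2, e⟩ => ⟨m, h1, h2.trans h, e⟩⟩
  refine ⟨M + 1, by omega, fun K _ _ _ φ hφ h => fact fun m hm => ?_⟩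
  let ψ := MvPolynomial.eval₂Hom (Int.castRingHom K) fun i : Fin (n + 1) => φ.coeff i
  have e : u.map ψ = φ := by
    rw [φ.as_sum_range' (n + 1) (by omega), Finset.sum_range]
    simp [u, ψ, Polynomial.map_sum]
  have : Ideal.span {y | ∃ m, 1 ≤ m ∧ m ≤ M ∧ y = Λ (u ^ m)} ≤ RingHom.ker ψ :=
    Ideal.span_le.2 fun y ⟨m, h1, h2, e'⟩ => by
      rw [SetLike.mem_coe, RingHom.mem_ker, e', ← Λ_map, Polynomial.map_pow, e, h m h1 (by omega)]
  rw [← e, ← Polynomial.map_pow, Λ_map]
  exact this ((hM (max M m) (le_max_left _ _)).ge (Ideal.subset_span ⟨m, hm, le_max_right _ _, rfl⟩))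

variable {R S : Type} [CommRing R] [CommRing S] [Algebra R S]

/-- Rees algebra of a submodule. -/
def rees (N : Submodule R S) : Subalgebra R S[X] where
  carrier := {p | ∀ j, p.coeff j ∈ N ^ j}
  mul_mem' hp hq j := by
    rw [coeff_mul]
    refine Submodule.sum_mem _ fun c hc => ?_
    rw [← Finset.HasAntidiagonal.mem_antidiagonal.1 hc, pow_add]
    exact Submodule.mul_mem_mul (hp _) (hq _)
  add_mem' hp hq j := by rw [coeff_add]; exact Submodule.add_mem _ (hp j) (hq j)
  algebraMap_mem' r j := by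
    rw [Polynomial.algebraMap_apply, coeff_C]
    split_ifs with h
    · rw [h, pow_zero]; exact Submodule.algebraMap_mem r
    · exact Submodule.zero_mem _

theorem mono_mem {N : Submodule R S} {j : ℕ} {y : S} (h : y ∈ N ^ j) : monomial j y ∈ rees N :=
  fun i => by
    rw [coeff_monomial]
    split_ifs with e
    exacts [e ▸ h, Submodule.zero_mem _]

theorem rees_main [Algebra ℚ R] {n M : ℕ} (hs : Suff n M) (α : R) (φ : S[X]) (hφ : φ.natDegree ≤ n)
    (E : R[X]) (hE : IsNilpotent (E - 1)) (h : ∀ m, 1 ≤ m → m ≤ M → ∃ b : R,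
      Λ (E.map (algebraMap R S) * φ ^ m) = algebraMap R S (α * b)) :
    ∃ W : Submodule R S, W.FG ∧ ∀ q, ∃ m₀, ∀ m ≥ m₀, ∀ k, ∃ w ∈ W, (φ ^ m).coeff k = α ^ q • w := by
  classical
  let N := Submodule.span R (Set.range fun i : Fin (n + 1) => φ.coeff i)
  let N₁ := 1 ⊔ N
  have hN : ∀ k, φ.coeff k ∈ N := fun k => by
    by_cases hk : k < n + 1
    · exact Submodule.subset_span ⟨⟨k, hk⟩, rfl⟩
    · rw [coeff_eq_zero_of_natDegree_lt (by omega)]; exact N.zero_mem
  have h1 : (1 : S) ∈ N₁ := Submodule.mem_sup_left (Submodule.one_le.1 le_rfl)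
  let c : ℕ → rees N₁ := fun k =>
    ⟨monomial 1 (φ.coeff k), mono_mem (by rw [pow_one]; exact Submodule.mem_sup_right (hN k))⟩
  let T : rees N₁ := ⟨monomial 1 1, mono_mem (by rwa [pow_one])⟩
  let u : (rees N₁)[X] := ∑ k ∈ Finset.range (n + 1), monomial k (c k)
  have hu : u.map (rees N₁).val.toRingHom = C X * φ.map C := by
    conv_rhs => rw [φ.as_sum_range' (n + 1) (by omega)]
    simp only [u, Polynomial.map_sum, Finset.mul_sum, Polynomial.map_monomial, C_mul_monomial]
    exact Finset.sum_congr rfl fun k _ => by rw [mul_comm, C_mul_X_eq_monomial]; rfl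
  let _ : Algebra ℚ (rees N₁) := ((algebraMap R _).comp (algebraMap ℚ R)).toAlgebra
  let 𝔪 : Ideal (rees N₁) := Ideal.span (Set.range fun i : Fin (n + 1) => c i)
  obtain ⟨r, hr⟩ := Ideal.exists_pow_le_of_le_radical_of_fg (I := 𝔪)
    (J := Ideal.span {algebraMap R _ α * T}) (Ideal.span_le.2 (by
      rintro _ ⟨i, rfl⟩
      refine test _ _ fun K _ _ _ ψ hψ => ?_
      have h0 := hψ _ (Ideal.mem_span_singleton_self _)
      have hE' : E.map (ψ.comp (algebraMap R _)) = 1 := by
        have := (hE.map (mapRingHom (ψ.comp (algebraMap R _)))).eq_zero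
        simpa [sub_eq_zero] using this
      have := hs K (u.map ψ) (natDegree_map_le.trans (natDegree_sum_le_of_forall_le _ _ fun k hk =>
        (natDegree_monomial_le _).trans (by simpa [Nat.lt_succ_iff] using hk))) fun m h1 h2 => by
          obtain ⟨b, hb⟩ := h m h1 h2
          obtain ⟨m, rfl⟩ := Nat.exists_eq_add_of_le' h1
          have e : Λ (E.map (algebraMap R (rees N₁)) * u ^ (m + 1)) =
              algebraMap R _ α * T * (algebraMap R _ b * T ^ m) := by
            apply Subtype.val_injective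
            have := Λ_map (rees N₁).val.toRingHom (E.map (algebraMap R (rees N₁)) * u ^ (m + 1))
            rw [Polynomial.map_mul, Polynomial.map_pow, hu, Polynomial.map_map, mul_pow, ← C_pow,
              mul_left_comm, Λ_C_mul, show (rees N₁).val.toRingHom.comp (algebraMap R (rees N₁)) =
                C.comp (algebraMap R S) from rfl, ← Polynomial.map_map, ← Polynomial.map_pow,
              ← Polynomial.map_mul, Λ_map, hb] at this
            refine this.symm.trans ?_
            simp [T, monomial_one_one_eq_X, Polynomial.algebraMap_apply]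
            ring
          have := congrArg ψ e
          rwa [← Λ_map, Polynomial.map_mul, Polynomial.map_map, hE', one_mul, Polynomial.map_pow,
            map_mul, h0, zero_mul] at this
      have := congrArg (coeff · i) this
      simpa [u, coeff_monomial, finsetSum_coeff, i.2] using this))
    (Submodule.fg_span (Set.finite_range _))
  have hm : ∀ j, ∀ y ∈ N ^ j, ∃ p ∈ 𝔪 ^ j, p.1 = monomial j y := fun j => by
    induction j with
    | zero =>
      intro y hy
      obtain ⟨b, rfl⟩ := Submodule.mem_one.1 (pow_zero N ▸ hy)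
      exact ⟨algebraMap R _ b, by simp, rfl⟩
    | succ j ih =>
      intro y hy
      rw [pow_succ] at hy ⊢
      refine Submodule.mul_induction_on hy (fun x hx z hz => ?_) fun x z ⟨p, hp, e⟩ ⟨p', hp', e'⟩ =>
        ⟨p + p', add_mem hp hp', by simp [e, e']⟩
      obtain ⟨p, hp, e⟩ := ih x hx
      obtain ⟨p', hp', e'⟩ : ∃ p ∈ 𝔪, p.1 = monomial 1 z := by
        induction hz using Submodule.span_induction with
        | mem _ h => obtain ⟨i, rfl⟩ := h; exact ⟨c i, Ideal.subset_span ⟨i, rfl⟩, rfl⟩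
        | zero => exact ⟨0, zero_mem _, by simp⟩
        | add _ _ _ _ h h' =>
          obtain ⟨p, hp, e⟩ := h
          obtain ⟨p', hp', e'⟩ := h'
          exact ⟨p + p', add_mem hp hp', by simp [e, e']⟩
        | smul b _ _ h =>
          obtain ⟨p, hp, e⟩ := h
          exact ⟨b • p, Submodule.smul_of_tower_mem _ b hp, by simp [e]⟩
      exact ⟨p * p', Ideal.mul_mem_mul hp hp', by simp [e, e', monomial_mul_monomial]⟩
  have hA : ∀ y ∈ N ^ (r + 1), ∃ w ∈ N₁ ^ r, y = α • w := fun y hy => by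
    obtain ⟨p, hp, e⟩ := hm _ y hy
    obtain ⟨p', rfl⟩ := Ideal.mem_span_singleton'.1 (hr (Ideal.pow_le_pow_right r.le_succ hp))
    refine ⟨_, p'.2 r, ?_⟩
    have := congrArg (coeff · (r + 1)) e
    simp only [MulMemClass.coe_mul, T, monomial_one_one_eq_X, coeff_monomial_same,
      SubalgebraClass.coe_algebraMap, Polynomial.algebraMap_apply, ← mul_assoc, coeff_mul_X,
      coeff_mul_C] at this
    rw [← this, Algebra.smul_def, mul_comm]
  have hle : ∀ j, N ^ j ≤ N₁ ^ j := fun j => pow_le_pow_left' le_sup_right j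
  have h2 : ∀ j, N₁ ^ (j + 1) ≤ N₁ ^ j ⊔ N ^ (j + 1) := fun j => by
    induction j with
    | zero => simp [N₁]
    | succ j ih =>
      rw [pow_succ]
      refine (mul_le_mul_left ih _).trans ?_
      rw [Submodule.sup_mul, ← pow_succ, Submodule.mul_sup, mul_one, ← pow_succ]
      exact sup_le le_sup_left (sup_le_sup_right (hle _) _)
  have h3 : ∀ j, N₁ ^ j ≤ N₁ ^ r := fun j => by
    rcases le_total j r with hj | hj
    · exact pow_le_pow_right' (Submodule.one_le.2 h1) hj
    induction j, hj using Nat.le_induction with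
    | base => exact le_rfl
    | succ j hj ih =>
      rw [pow_succ]
      refine (mul_le_mul_left ih _).trans ((pow_succ N₁ r).ge.trans ((h2 r).trans
        (sup_le le_rfl fun y hy => ?_)))
      obtain ⟨w, hw, rfl⟩ := hA y hy
      exact Submodule.smul_mem _ _ hw
  have h4 : ∀ q j, ∀ y ∈ N ^ (j + q * (r + 1)), ∃ w ∈ N₁ ^ r, y = α ^ q • w := fun q j => by
    induction q with
    | zero => exact fun y hy => ⟨y, h3 _ (hle _ hy), by simp⟩
    | succ q ih =>
      intro y hy
      rw [add_mul, one_mul, ← add_assoc, pow_add] at hy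
      refine Submodule.mul_induction_on hy (fun x hx z hz => ?_) fun x z ⟨p, hp, e⟩ ⟨p', hp', e'⟩ =>
        ⟨p + p', add_mem hp hp', by rw [e, e', smul_add]⟩
      obtain ⟨w, hw, rfl⟩ := ih x hx
      obtain ⟨w', hw', rfl⟩ := hA z hz
      exact ⟨w * w', h3 _ (pow_add N₁ r r ▸ Submodule.mul_mem_mul hw hw'), by
        rw [smul_mul_smul_comm, pow_succ]⟩
  have h5 : ∀ m k, (φ ^ m).coeff k ∈ N ^ m := fun m => by
    induction m with
    | zero =>
      intro k
      rw [pow_zero, pow_zero, coeff_one]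
      split_ifs
      exacts [Submodule.one_le.1 le_rfl, Submodule.zero_mem _]
    | succ m ih =>
      intro k
      rw [pow_succ, pow_succ, coeff_mul]
      exact Submodule.sum_mem _ fun _ _ => Submodule.mul_mem_mul (ih _) (hN _)
  refine ⟨N₁ ^ r, (Submodule.FG.sup ⟨{1}, by simp [Submodule.one_eq_span]⟩
    (Submodule.fg_span (Set.finite_range _))).pow r, fun q => ⟨q * (r + 1), fun m hm k => ?_⟩⟩
  obtain ⟨j, rfl⟩ := Nat.exists_eq_add_of_le' hm
  exact h4 q j _ (h5 _ k)

end Pool.Agent.H.MP_405479_al
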