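import Pool.Agent.H.MP_405479_al.A

set_option autoImplicit false

namespace Pool.Agent.H.MP_405479_al
open Polynomial

section
variable {R : Type} [CommRing R] [Algebra ℚ R]

theorem inv_nat (k : ℕ) : ((k : R) + 1) * algebraMap ℚ R (k + 1)⁻¹ = 1 := by
  rw [← map_natCast (algebraMap ℚ R), ← map_one (algebraMap ℚ R), ← map_add, ← map_mul,
    mul_inv_cancel₀ (by positivity)]

theorem nil_of_der {p : R[X]} (h0 : p.coeff 0 = 0) (h : IsNilpotent (derivative p)) :
    IsNilpotent p := Polynomial.isNilpotent_iff.2 fun k => by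
  cases k with
  | zero => simp [h0]
  | succ k =>
    have := (Commute.all _ (algebraMap ℚ R (k + 1)⁻¹)).isNilpotent_mul_right
      (Polynomial.isNilpotent_iff.1 h k)
    rwa [coeff_derivative, mul_assoc, inv_nat, mul_one] at this

theorem der_surj (p : R[X]) : ∃ q : R[X], q.coeff 0 = 0 ∧ derivative q = p := by
  induction p using Polynomial.induction_on' with
  | add p q hp hq =>
    obtain ⟨p', h1, rfl⟩ := hp
    obtain ⟨q', h2, rfl⟩ := hq
    exact ⟨p' + q', by simp [h1, h2], map_add ..⟩
  | monomial n y =>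
    refine ⟨monomial (n + 1) (y * algebraMap ℚ R (n + 1)⁻¹), by simp [coeff_monomial], ?_⟩
    rw [derivative_monomial_succ, mul_assoc, mul_comm _ ((n : R) + 1), inv_nat, mul_one]

theorem expo {ν : R[X]} (h : IsNilpotent ν) :
    ∃ E : R[X], derivative E = ν * E ∧ E.coeff 0 = 1 ∧ IsNilpotent (E - 1) := by
  obtain ⟨Q, h0, rfl⟩ := der_surj ν
  have hQ := nil_of_der h0 h
  refine ⟨IsNilpotent.exp Q, ?_, ?_, hQ.isNilpotent_exp_sub_one⟩
  · obtain ⟨k, hk⟩ := hQ
    conv_lhs => rw [IsNilpotent.exp_eq_sum (k := k + 1) (by rw [pow_succ, hk, zero_mul])]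
    rw [IsNilpotent.exp_eq_sum hk, Finset.sum_range_succ', map_add, map_sum, Finset.mul_sum]
    simp only [pow_zero, derivative_smul, derivative_one, smul_zero, add_zero]
    refine Finset.sum_congr rfl fun i _ => ?_
    rw [derivative_pow_succ, Nat.factorial_succ, ← Nat.cast_succ, C_eq_natCast, mul_assoc,
      ← nsmul_eq_mul, ← Nat.cast_smul_eq_nsmul ℚ, smul_smul, mul_smul_comm, mul_comm (Q ^ i)]
    congr 1
    push_cast
    field_simp
  · rw [← constantCoeff_apply, hQ.map_exp, constantCoeff_apply, h0, IsNilpotent.exp_zero]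

end

variable {A : Type} [CommRing A]

/-- The operator `c ∂ - a`. -/
noncomputable def D (c : A) (a h : A[X]) : A[X] := C c * derivative h - a * h

theorem regular [Algebra ℚ A] {c : A} {a f : A[X]} {n M : ℕ} (L : Type) [CommRing L]
    [Algebra A[X] L] [IsLocalization.Away a L] (hreg : a ∈ nonZeroDivisors A[X])
    (hnil : IsNilpotent (C c * derivative a)) (hs : Suff n M) (hn : f.natDegree ≤ n)
    (hf : ∀ m, 1 ≤ m → m ≤ M → ∃ h, D c a h = f ^ m) (g : A[X]) (K : ℕ) :
    ∃ N, ∀ m ≥ N, ∃ h, D c a (a ^ K * h) = g * f ^ m := by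
  classical
  let ι := algebraMap A[X] L
  have hι : Function.Injective ι := IsLocalization.injective L (Submonoid.powers_le.2 hreg)
  let _ : Algebra ℚ L := (ι.comp (algebraMap ℚ A[X])).toAlgebra
  let b : L := IsLocalization.Away.invSelf a
  have hb : ι a * b = 1 := IsLocalization.Away.mul_invSelf a
  let Φ : A[X] →+* L[X] := eval₂RingHom (C.comp (ι.comp C)) (C (ι X) + C (ι (C c) * b) * X)
  have hC : ∀ y, Φ (C y) = C (ι (C y)) := fun y => by simp [Φ]
  have hX : Φ X = C (ι X) + C (ι (C c) * b) * X := by simp [Φ]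
  have h1 : ∀ p, (Φ p).coeff 0 = ι p := fun p => by
    have : constantCoeff.comp Φ = ι := Polynomial.ringHom_ext (fun y => by simp [hC]) (by simp [hX])
    exact RingHom.congr_fun this p
  have h2 : ∀ p, derivative (Φ p) = C b * Φ (C c * derivative p) := fun p => by
    induction p using Polynomial.induction_on with
    | C y => simp [hC]
    | add p q hp hq => simp [hp, hq, mul_add]
    | monomial n y ih =>
      rw [pow_succ, ← mul_assoc]
      generalize C y * X ^ n = q at ih
      simp only [map_mul, derivative_mul, ih, hX, hC, derivative_X, map_add, derivative_C, map_one]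
      ring
  have h3 : ∀ p, (Φ p).natDegree ≤ p.natDegree := fun p => by
    rw [show Φ p = (p.map (ι.comp C)).comp (C (ι X) + C (ι (C c) * b) * X) by
      simp [Φ, comp, eval₂_map]]
    refine natDegree_comp_le.trans ((Nat.mul_le_mul natDegree_map_le
      (by compute_degree : _ ≤ 1)).trans (mul_one _).le)
  have hν : IsNilpotent (Φ a - C (ι a)) := nil_of_der (by simp [h1]) (by
    rw [map_sub, derivative_C, sub_zero, h2]
    exact (Commute.all _ _).isNilpotent_mul_left (hnil.map Φ))
  have hu : IsUnit (Φ a) := by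
    rw [← sub_add_cancel (Φ a) (C (ι a))]
    exact hν.isUnit_add_right_of_commute ((IsUnit.of_mul_eq_one _ hb).map C) (Commute.all _ _)
  let Ψ : L →+* L[X] := IsLocalization.Away.lift a hu
  have hΨ : ∀ p, Ψ (ι p) = Φ p := IsLocalization.Away.lift_eq a hu
  have h4 : ∀ u, (Ψ u).coeff 0 = u := fun u => by
    have : constantCoeff.comp Ψ = RingHom.id L :=
      IsLocalization.ringHom_ext (Submonoid.powers a) (RingHom.ext fun p => by
        show constantCoeff (Ψ (ι p)) = ι p
        rw [hΨ]; exact h1 p)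
    exact RingHom.congr_fun this u
  obtain ⟨E, hE1, hE2, hE3⟩ := expo ((Commute.all (-C b) _).isNilpotent_mul_left hν)
  have hab : C (ι a) * C b = 1 := by rw [← C_mul, hb, C_1]
  have key : ∀ u, Λ (E * (C (ι a) * derivative (Ψ u) - Φ a * Ψ u)) = -(ι a * u) := fun u => by
    have := Λ_der (E * Ψ u)
    rw [mul_coeff_zero, hE2, h4, one_mul] at this
    rw [← mul_neg, ← this, ← Λ_C_mul, derivative_mul, hE1]
    congr 1
    linear_combination (E * Ψ u * (Φ a - C (ι a))) * hab
  have hD : ∀ h, C (ι a) * derivative (Ψ (ι h)) - Φ a * Ψ (ι h) = Φ (D c a h) := fun h => by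
    rw [hΨ, h2, ← mul_assoc, hab, one_mul, D, map_sub, map_mul Φ a]
  have hw : Φ a * Ψ b = 1 := by rw [← hΨ, ← map_mul, hb, map_one]
  have hw' : C (ι a) * derivative (Ψ b) = -(Φ (C c * derivative a) * Ψ b ^ 2) := by
    have := congrArg derivative hw
    rw [derivative_mul, h2, derivative_one] at this
    linear_combination (C (ι a) * Ψ b) * this - (C (ι a) * derivative (Ψ b)) * hw -
      (Φ (C c * derivative a) * Ψ b ^ 2) * hab
  have solve : ∀ F, ∃ u, C (ι a) * derivative (Ψ u) - Φ a * Ψ u = Φ F := by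
    let 𝔫 : Ideal A := Ideal.span ((C c * derivative a).coeffs : Set A)
    obtain ⟨r, hr⟩ := Ideal.exists_pow_le_of_le_radical_of_fg (I := 𝔫) (J := ⊥) (Ideal.span_le.2
      fun y hy => by
        obtain ⟨i, -, rfl⟩ := mem_coeffs_iff.1 hy
        exact Polynomial.isNilpotent_iff.1 hnil i) (Submodule.fg_span (Finset.finite_toSet _))
    have : ∀ j, j ≤ r → ∀ F ∈ (𝔫 ^ j).map C, ∀ p,
        ∃ u, C (ι a) * derivative (Ψ u) - Φ a * Ψ u = Φ F * Ψ b ^ p := by
      intro j hj
      induction hj using Nat.decreasingInduction with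
      | self =>
        intro F hF p
        obtain rfl : F = 0 := by simpa using Ideal.map_mono (f := C) hr hF
        exact ⟨0, by simp⟩
      | of_succ j _ ih =>
        intro F hF
        induction hn : F.natDegree using Nat.strong_induction_on generalizing F with
        | _ n ih' =>
        intro p
        obtain ⟨u, hu⟩ : ∃ u, C (ι a) * derivative (Ψ u) - Φ a * Ψ u =
            Φ (C c * derivative F) * Ψ b ^ (p + 1) := by
          by_cases h0 : n = 0
          · exact ⟨0, by simp [derivative_of_natDegree_zero (hn.trans h0)]⟩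
          exact ih' _ ((natDegree_C_mul_le _ _).trans_lt (hn ▸ natDegree_derivative_lt (hn ▸ h0))) _
            (Ideal.mul_mem_left _ _ (Ideal.mem_map_C_iff.2 fun i => by
              rw [coeff_derivative]; exact Ideal.mul_mem_right _ _ (Ideal.mem_map_C_iff.1 hF _))) rfl _
        obtain ⟨v, hv⟩ := ih (F * (C c * derivative a)) (by
          rw [pow_succ, Ideal.map_mul]
          refine Ideal.mul_mem_mul hF (Ideal.mem_map_C_iff.2 fun i => ?_)
          by_cases h0 : (C c * derivative a).coeff i = 0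
          · exact h0 ▸ zero_mem _
          exact Ideal.subset_span (coeff_mem_coeffs h0)) (p + 2)
        refine ⟨u - (p + 1) * v - ι F * b ^ (p + 1), ?_⟩
        simp only [map_sub Ψ, map_mul Ψ, map_add Ψ, map_natCast Ψ, map_one Ψ, map_pow Ψ, hΨ]
        simp only [derivative_sub, derivative_add, map_mul Φ, derivative_mul,
          derivative_natCast, derivative_one, derivative_pow_succ, h2 F, map_add C, map_natCast C,
          map_one C] at hu hv hw' ⊢
        linear_combination hu - (p + 1) * hv - (Φ (C c) * Φ (derivative F) * Ψ b ^ (p + 1)) * hab -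
          (Φ F * (p + 1) * Ψ b ^ p) * hw' + (Φ F * Ψ b ^ p) * hw
    exact fun F => by simpa using this 0 r.zero_le F (by simp [Ideal.map_top]) 0
  have den : ∀ p : L[X], ∃ d, ∃ q : A[X][X], q.map ι = C (ι a ^ d) * p := fun p => by
    obtain ⟨_, ⟨d, rfl⟩, h⟩ := IsLocalization.integerNormalization_spec (Submonoid.powers a) p
    exact ⟨d, _, by rw [h, Algebra.smul_def]; simp [ι]⟩
  let R := Algebra.adjoin A[X] (E.coeffs : Set L)
  have hR : Module.Finite A[X] R := Algebra.finite_adjoin_of_finite_of_isIntegral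
    (Finset.finite_toSet _) fun y hy => by
      obtain ⟨i, -, rfl⟩ := mem_coeffs_iff.1 hy
      rw [← sub_add_cancel E 1, coeff_add]
      obtain ⟨n, hn⟩ := Polynomial.isNilpotent_iff.1 hE3 i
      refine IsIntegral.add ⟨X ^ n, monic_X_pow n, by simpa using hn⟩ ?_
      rw [coeff_one]
      split_ifs
      exacts [isIntegral_one, isIntegral_zero]
  let _ : Algebra ℚ R := ((algebraMap A[X] R).comp (algebraMap ℚ A[X])).toAlgebra
  obtain ⟨E₁, hE₁⟩ : E ∈ lifts (algebraMap R L) := (lifts_iff_coeffs_subset_range _).2 fun y hy =>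
    ⟨⟨y, Algebra.subset_adjoin hy⟩, rfl⟩
  rw [coe_mapRingHom] at hE₁
  obtain ⟨W, hW, hW'⟩ := rees_main hs (algebraMap A[X] R a) (Φ f) ((h3 f).trans hn) E₁ (by
    rw [← IsNilpotent.map_iff (f := mapRingHom (algebraMap R L))
      (map_injective _ Subtype.val_injective)]
    simpa [hE₁] using hE3) fun m h1 h2 => by
      obtain ⟨h, e⟩ := hf m h1 h2
      refine ⟨-algebraMap _ _ h, ?_⟩
      rw [hE₁, ← map_pow, ← e, ← hD, key]
      simp [ι, mul_neg]
  obtain ⟨s, hs⟩ : (W.restrictScalars A[X]).FG := hW.restrictScalars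
  obtain ⟨⟨_, P, rfl⟩, hP⟩ := IsLocalization.exist_integer_multiples_of_finset (Submonoid.powers a) s
  have hP' : ∀ w ∈ W, ι a ^ P * w ∈ ι.range := fun w hw => by
    have : w ∈ Submodule.span A[X] (s : Set L) := hs.ge hw
    clear hw
    induction this using Submodule.span_induction with
    | mem _ h => simpa [Algebra.smul_def, IsLocalization.IsInteger] using hP _ h
    | zero => simp
    | add _ _ h1 h2 h h' => rw [mul_add]; exact add_mem h h'
    | smul y _ h1 h => rw [Algebra.smul_def, mul_left_comm]; exact mul_mem ⟨y, rfl⟩ h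
  obtain ⟨d, q, hq⟩ := den (E * Φ g)
  obtain ⟨N, hN⟩ := hW' (P + (d + (K + 1)))
  refine ⟨N, fun m hm => ?_⟩
  obtain ⟨p, hp⟩ : C (b ^ (d + (K + 1))) * Φ f ^ m ∈ lifts ι := (lifts_iff_coeff_lifts _).2 fun k => by
    obtain ⟨w, hw, e⟩ := hN m hm k
    have : b ^ (d + (K + 1)) * (ι a ^ (P + (d + (K + 1))) * w) = ι a ^ P * w := by
      rw [pow_add (ι a), mul_right_comm, mul_left_comm, ← mul_pow, mul_comm b, hb, one_pow, mul_one]
    rw [coeff_C_mul, e, Algebra.smul_def, map_pow]
    exact this ▸ hP' w hw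
  obtain ⟨u, hu⟩ := solve (g * f ^ m)
  have e := key u
  have e2 : E * Φ (g * f ^ m) = C (ι a ^ (K + 1)) * (q * p).map ι := by
    rw [coe_mapRingHom] at hp
    have := congrArg (· ^ (d + (K + 1))) hab
    rw [Polynomial.map_mul, hp, hq]
    simp only [map_mul, map_pow, mul_pow, one_pow] at this ⊢
    linear_combination (-E * Φ g * Φ f ^ m) * this
  rw [hu, e2, Λ_C_mul, Λ_map] at e
  obtain rfl : u = ι (a ^ K * -Λ (q * p)) := by
    rw [map_mul, map_pow, map_neg]
    linear_combination b * e - (u + ι a ^ K * ι (Λ (q * p))) * hb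
  exact ⟨_, hι (by rw [← h1, ← h1, ← hD, hu])⟩

end Pool.Agent.H.MP_405479_al
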