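import Pool.Agent.H.MP_405479_al.B

set_option autoImplicit false

namespace Pool.Agent.H.MP_405479_al
open Polynomial MP_3bbc5b_al

variable {A : Type} [CommRing A]

theorem D_map {B : Type} [CommRing B] (ψ : A →+* B) (c : A) (a h : A[X]) :
    (D c a h).map ψ = D (ψ c) (a.map ψ) (h.map ψ) := by simp [D, derivative_map]

theorem D_add (c : A) (a h h' : A[X]) : D c a (h + h') = D c a h + D c a h' := by
  simp only [D, map_add]; ring

theorem D_C (c y : A) (a h : A[X]) : D c a (C y * h) = C y * D c a h := by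
  simp only [D, derivative_C_mul]; ring

theorem der_mem {J : Ideal A} {p : A[X]} (h : p ∈ J.map C) : derivative p ∈ J.map C :=
  Ideal.mem_map_C_iff.2 fun i => by
    rw [coeff_derivative]; exact Ideal.mul_mem_right _ _ (Ideal.mem_map_C_iff.1 h _)

theorem self_mem (p : A[X]) : p ∈ p.contentIdeal.map C :=
  Ideal.mem_map_C_iff.2 p.coeff_mem_contentIdeal

theorem small [Algebra ℚ A] (c : A) (a : A[X]) (j : ℕ) : ∀ J : Ideal A,
    a.contentIdeal ^ j * J = ⊥ → ∀ τ ∈ ((a.contentIdeal ⊔ Ideal.span {c}) ^ j * J).map C,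
      ∃ h, D c a h = τ := by
  induction j with
  | zero =>
    intro J hJ τ hτ
    obtain rfl : J = ⊥ := by simpa using hJ
    obtain rfl : τ = 0 := by simpa using hτ
    exact ⟨0, by simp [D]⟩
  | succ j ih =>
    intro J hJ τ hτ
    have ih' := ih (a.contentIdeal * J) (by rw [← mul_assoc, ← pow_succ, hJ])
    rw [pow_succ, mul_assoc, Ideal.sup_mul, Ideal.mul_sup, Ideal.map_sup,
      mul_left_comm _ (Ideal.span {c}), Ideal.map_mul C (Ideal.span {c}), Ideal.map_span,
      Set.image_singleton] at hτ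
    obtain ⟨τ₁, h1, τ₂, h2, rfl⟩ := Submodule.mem_sup.1 hτ
    obtain ⟨σ, hσ, rfl⟩ := Ideal.mem_span_singleton_mul.1 h2
    obtain ⟨q, h0, rfl⟩ := der_surj σ
    obtain ⟨h, e⟩ := ih' (τ₁ + a * q) (add_mem h1 (by
      rw [mul_left_comm, Ideal.map_mul]
      refine Ideal.mul_mem_mul (self_mem a) (Ideal.mem_map_C_iff.2 fun k => ?_)
      cases k with
      | zero => rw [h0]; exact zero_mem _
      | succ k =>
        have := Ideal.mul_mem_right (algebraMap ℚ A (k + 1)⁻¹) _ (Ideal.mem_map_C_iff.1 hσ k)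
        rwa [coeff_derivative, mul_assoc, inv_nat, mul_one] at this))
    exact ⟨h + q, by rw [D_add, e, D]; ring⟩

theorem noeth [Algebra ℚ A] [IsNoetherianRing A] {c : A} {a f : A[X]} {n M : ℕ} (hM : 1 ≤ M)
    (hs : Suff n M) (hn : f.natDegree ≤ n) (hnil : IsNilpotent (C c * derivative a * f))
    (hf : ∀ m, 1 ≤ m → m ≤ M → ∃ h, D c a h = f ^ m) (g : A[X]) :
    ∃ N, ∀ m ≥ N, ∃ h, D c a h = g * f ^ m := by
  let I := a.contentIdeal
  let F := f.contentIdeal
  obtain ⟨N, hN⟩ := monotone_stabilizes_iff_noetherian.2 (inferInstance : IsNoetherian A A)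
    ⟨fun k => ((I * F) ^ k).annihilator, fun k k' h =>
      Submodule.annihilator_mono (Ideal.pow_le_pow_right h)⟩
  let T : Ideal A := ((I * F) ^ N).annihilator
  let π := Ideal.Quotient.mk T
  have hker : ∀ p : A[X], p.map π = 0 ↔ p ∈ T.map C := fun p => by
    simp [Ideal.mem_map_C_iff, Polynomial.ext_iff, π, Ideal.Quotient.eq_zero_iff_mem]
  have hreg : ∀ p : A[X], I * F ≤ p.contentIdeal → p.map π ∈ nonZeroDivisors (A ⧸ T)[X] :=
    fun p hp => Polynomial.mem_nonZeroDivisors_iff.2 fun y hy => by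
      obtain ⟨y, rfl⟩ := Ideal.Quotient.mk_surjective y
      have h1 : C y * p ∈ T.map C := (hker _).1 (by simpa [smul_eq_C_mul] using hy)
      have h2 : p.contentIdeal ≤ Submodule.comap (LinearMap.mulLeft A y) T := Ideal.span_le.2 fun z hz => by
        obtain ⟨i, -, rfl⟩ := mem_coeffs_iff.1 hz
        simpa using Ideal.mem_map_C_iff.1 h1 i
      refine Ideal.Quotient.eq_zero_iff_mem.2 ((hN (N + 1) N.le_succ).ge
        (Submodule.mem_annihilator.2 fun z hz => ?_))
      rw [pow_succ'] at hz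
      refine Submodule.mul_induction_on hz (fun q hq w hw => ?_) fun q w h h' => by
        rw [smul_add, h, h', add_zero]
      rw [smul_eq_mul, ← mul_assoc]
      exact Submodule.mem_annihilator.1 (h2 (hp hq)) w hw
  let 𝔞 := I ⊔ Ideal.span {c}
  have hD : ∀ (J : Ideal A), ∀ h ∈ J.map C, D c a h ∈ J.map C := fun J h hh =>
    sub_mem (Ideal.mul_mem_left _ _ (der_mem hh)) (Ideal.mul_mem_left _ _ hh)
  have ha : a ∈ 𝔞.map C := Ideal.map_mono le_sup_left (self_mem a)
  have hf𝔞 : f ∈ 𝔞.map C := by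
    obtain ⟨h, e⟩ := hf 1 le_rfl hM
    rw [← pow_one f, ← e]
    exact sub_mem (Ideal.mul_mem_right _ _ (Ideal.mem_map_of_mem _
      (Ideal.mem_sup_right (Ideal.mem_span_singleton_self c)))) (Ideal.mul_mem_right _ _ ha)
  obtain ⟨r, hr⟩ := Ideal.exists_pow_inf_eq_pow_smul 𝔞 (T : Submodule A A)
  have h1 : ∀ g, ∃ N₁, ∀ m ≥ N₁, ∃ u, g * f ^ m - D c a u ∈ (𝔞 ^ N * T).map C := fun g => by
    obtain ⟨N₁, h⟩ := regular (c := π c) (f := f.map π) (Localization.Away (a.map π))
      (hreg a Ideal.mul_le_left) (by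
        obtain ⟨e, he⟩ := hnil.map (mapRingHom π)
        refine ⟨e, (pow_mem (hreg f Ideal.mul_le_right) e).2 _ ?_⟩
        simpa [mul_pow, derivative_map] using he) hs (natDegree_map_le.trans hn)
      (fun m h1 h2 => by
        obtain ⟨h, e⟩ := hf m h1 h2
        exact ⟨h.map π, by rw [← D_map, e, Polynomial.map_pow]⟩) (g.map π) (N + r)
    refine ⟨N₁ + (N + r), fun m hm => ?_⟩
    obtain ⟨u, hu⟩ := h m (by omega)
    obtain ⟨u, rfl⟩ := map_surjective π Ideal.Quotient.mk_surjective u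
    refine ⟨a ^ (N + r) * u, Ideal.mem_map_C_iff.2 fun k => ?_⟩
    have e := hr (N + r) (by omega)
    simp only [smul_eq_mul, Ideal.mul_top, Nat.add_sub_cancel] at e
    refine Ideal.mul_mono_right inf_le_right (e.le ⟨Ideal.mem_map_C_iff.1 (sub_mem ?_ (hD _ _ ?_)) k,
      Ideal.mem_map_C_iff.1 ((hker _).1 ?_) k⟩)
    · rw [Ideal.map_pow]
      exact Ideal.mul_mem_left _ _ (Ideal.pow_le_pow_right (by omega) (Ideal.pow_mem_pow hf𝔞 m))
    · rw [Ideal.map_pow]
      exact Ideal.mul_mem_right _ _ (Ideal.pow_mem_pow ha _)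
    · simp [D_map, hu]
  have h2 : ∀ p ∈ (F ^ N).map C, ∀ g, ∃ N₁, ∀ m ≥ N₁, ∃ u, D c a u = p * g * f ^ m := fun p hp => by
    induction hp using Submodule.span_induction with
    | mem _ h =>
      obtain ⟨y, hy, rfl⟩ := h
      intro g
      obtain ⟨N₁, h⟩ := h1 g
      refine ⟨N₁, fun m hm => ?_⟩
      obtain ⟨u, hu⟩ := h m hm
      obtain ⟨v, hv⟩ := small c a N (F ^ N * T) (by
        rw [← mul_assoc, ← mul_pow, mul_comm]
        exact Submodule.le_annihilator_iff.1 le_rfl) _ (by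
          rw [mul_left_comm, Ideal.map_mul]
          exact Ideal.mul_mem_mul (Ideal.mem_map_of_mem _ hy) hu)
      exact ⟨v + C y * u, by rw [D_add, hv, D_C]; ring⟩
    | zero => exact fun g => ⟨0, fun m _ => ⟨0, by simp [D]⟩⟩
    | add p q _ _ h h' =>
      intro g
      obtain ⟨N₁, h⟩ := h g
      obtain ⟨N₂, h'⟩ := h' g
      refine ⟨N₁ + N₂, fun m hm => ?_⟩
      obtain ⟨u, hu⟩ := h m (by omega)
      obtain ⟨v, hv⟩ := h' m (by omega)
      exact ⟨u + v, by rw [D_add, hu, hv]; ring⟩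
    | smul y p _ h => exact fun g => by simpa only [smul_eq_mul, mul_comm y, mul_assoc] using h (y * g)
  obtain ⟨N₁, h⟩ := h2 (f ^ N) (by rw [Ideal.map_pow]; exact Ideal.pow_mem_pow (self_mem f) N) g
  refine ⟨N₁ + N, fun m hm => ?_⟩
  obtain ⟨u, hu⟩ := h (m - N) (by omega)
  exact ⟨u, by rw [hu, mul_right_comm, ← pow_add, mul_comm, Nat.add_sub_cancel' (by omega)]⟩

theorem final [Algebra ℚ A] (c : A) (a f g : A[X]) (hf : ∀ m, 1 ≤ m → ∃ h, D c a h = f ^ m) :
    ∃ N, ∀ m ≥ N, ∃ h, D c a h = g * f ^ m := by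
  classical
  have hnil : IsNilpotent (C c * derivative a * f) := Polynomial.isNilpotent_iff.2 fun i =>
    test ⊥ _ fun K _ _ _ ψ _ => by
      suffices C (ψ c) * derivative (a.map ψ) * f.map ψ = 0 by
        rw [← coeff_map]
        simp [-mul_eq_zero, ← derivative_map, this]
      by_cases hc : ψ c = 0
      · simp [hc]
      rcases hd : (a.map ψ).natDegree with _ | δ
      · simp [derivative_of_natDegree_zero hd]
      rw [main (π := C (ψ c)) (κ := -a.map ψ) (δ := δ) (f := f.map ψ) ⟨by simp, by simp [hd],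
        fun k => by
          rw [coeff_C, if_neg (by omega), mul_zero, zero_add, coeff_neg, neg_ne_zero, ← hd]
          exact leadingCoeff_ne_zero.2 fun e => by simp [e] at hd⟩
        (fun τ hτ => by simp [hc] at hτ) fun m hm => ?_, mul_zero]
      obtain ⟨h, e⟩ := hf m hm
      exact ⟨h.map ψ, by rw [← Polynomial.map_pow, ← e, D_map, E_apply, D]; ring⟩
  obtain ⟨M, hM, hs⟩ := exists_suff f.natDegree
  choose! h hh using hf
  let s := insert (C c) (insert a (insert f (insert g ((Finset.range (M + 1)).image h))))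
  let B := Algebra.adjoin ℚ (s.biUnion coeffs : Set A)
  have := isNoetherianRing_of_fg (S := B) (Subalgebra.fg_adjoin_finset _)
  let ι := algebraMap B A
  have hι : Function.Injective (map ι) := map_injective ι Subtype.val_injective
  have lift : ∀ p ∈ s, ∃ q : B[X], q.map ι = p := fun p hp =>
    (lifts_iff_coeffs_subset_range _).2 fun y hy =>
      ⟨⟨y, Algebra.subset_adjoin (Finset.mem_coe.2 (Finset.mem_biUnion.2 ⟨p, hp, hy⟩))⟩, rfl⟩
  obtain ⟨c', hc⟩ := lift (C c) (by simp [s])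
  obtain ⟨a', ha⟩ := lift a (by simp [s])
  obtain ⟨f', hf'⟩ := lift f (by simp [s])
  obtain ⟨g', hg⟩ := lift g (by simp [s])
  replace hc : ι (c'.coeff 0) = c := by rw [← coeff_map, hc, coeff_C_zero]
  obtain ⟨N, hN⟩ := noeth (c := c'.coeff 0) (a := a') (f := f') hM hs
    (by rw [← hf', natDegree_map_eq_of_injective Subtype.val_injective])
    ((IsNilpotent.map_iff (f := mapRingHom ι) hι).1 (by
      simpa [hc, ← derivative_map, ha, hf'] using hnil)) (fun m h1 h2 => by
      obtain ⟨u, hu⟩ := lift (h m) (by simp [s, Finset.mem_image_of_mem h (Finset.mem_range_succ_iff.2 h2)])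
      exact ⟨u, hι (by rw [D_map, hc, ha, hu, hh m h1, Polynomial.map_pow, hf'])⟩) g'
  refine ⟨N, fun m hm => ?_⟩
  obtain ⟨u, hu⟩ := hN m hm
  exact ⟨u.map ι, by rw [← hc, ← ha, ← D_map, hu, Polynomial.map_mul, Polynomial.map_pow, hf', hg]⟩

end Pool.Agent.H.MP_405479_al
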